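import Mathlib

set_option autoImplicit false

/-!
# Sums and products over polynomials of bounded degree: logarithmically many colours

For every `d` some colouring of `P d` with at most `2 log d / log (3/2) + 2` colours has no
monochromatic `{x, y, x + y, x y}`; indeed no monochromatic
`{x_1, …, x_n, x_1 + ⋯ + x_n, x_1 ⋯ x_n}` for any `n ≥ 2`, for any set of indeterminates and any
coefficients in a commutative semiring without zero divisors in which sums of nonzero elements are
nonzero.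
-/

universe u v

namespace Pool.Agent.Results.MP_5a868e_co.LogarithmicallyManyColours

open MvPolynomial

/-- `P σ R d`: the nonzero polynomials in commuting indeterminates indexed by `σ`, with
coefficients in `R`, zero constant term, and degree at most `d` in each single variable. -/
def P (σ : Type u) (R : Type v) [CommSemiring R] (d : ℕ) : Set (MvPolynomial σ R) :=
  {f | f ≠ 0 ∧ MvPolynomial.constantCoeff f = 0 ∧ ∀ i : σ, MvPolynomial.degreeOf i f ≤ d}

/-- The largest exponent occurring in a polynomial. -/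
noncomputable def D {σ : Type u} {R : Type v} [CommSemiring R] (f : MvPolynomial σ R) : ℕ :=
  f.support.sup (fun m => m.support.sup (fun i => m i))

/-- The thresholds `1, 2, 3, 5, 8, 12, 18, 27, 41, …` -/
def S : ℕ → ℕ
  | 0 => 1
  | k + 1 => (3 * S k + 1) / 2

lemma S_pos (k : ℕ) : 1 ≤ S k := by
  induction k with
  | zero => exact le_refl _
  | succ k ih => show 1 ≤ (3 * S k + 1) / 2; omega

lemma S_lt (k : ℕ) : S k < S (k + 1) := by
  have := S_pos k
  show S k < (3 * S k + 1) / 2
  omega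

lemma S_mono : StrictMono S := strictMono_nat_of_lt_succ S_lt

lemma lt_S (k : ℕ) : k < S k := by
  induction k with
  | zero => exact S_pos 0
  | succ k ih => have := S_lt k; omega

lemma pow_le_S (k : ℕ) : ((3 : ℝ) / 2) ^ k ≤ S k := by
  induction k with
  | zero => simp [S]
  | succ k ih =>
    have h : 3 * S k ≤ 2 * S (k + 1) := by
      show 3 * S k ≤ 2 * ((3 * S k + 1) / 2)
      omega
    have h' : (3 : ℝ) * S k ≤ 2 * S (k + 1) := by exact_mod_cast h
    rw [pow_succ]
    linarith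

/-- The class of a positive number `n`: the number `k` with `S k ≤ n < S (k + 1)`. -/
def cls (n : ℕ) : ℕ := Nat.findGreatest (fun k => S k ≤ n) n

lemma S_cls {n : ℕ} (hn : 1 ≤ n) : S (cls n) ≤ n := by
  unfold cls
  exact Nat.findGreatest_spec (P := fun k => S k ≤ n) (Nat.zero_le n) hn

lemma lt_S_cls (n : ℕ) : n < S (cls n + 1) := by
  by_contra h
  rw [not_lt] at h
  have h1 : cls n + 1 ≤ n := by
    have := lt_S (cls n + 1)
    omega
  have h2 : cls n + 1 ≤ cls n := by
    conv_rhs => unfold cls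
    exact Nat.le_findGreatest h1 h
  omega

lemma cls_mono {m n : ℕ} (hm : 1 ≤ m) (h : m ≤ n) : cls m ≤ cls n := by
  have h1 := S_cls hm
  have h2 := lt_S_cls n
  have h3 : S (cls m) < S (cls n + 1) := by omega
  have := S_mono.lt_iff_lt.1 h3
  omega

section

variable {σ : Type u} {R : Type v} [CommSemiring R]

lemma le_D {f : MvPolynomial σ R} {m : σ →₀ ℕ} (hm : m ∈ f.support) (i : σ) : m i ≤ D f := by
  by_cases hi : m i = 0
  · omega
  · have h1 : m i ≤ m.support.sup (fun i => m i) :=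
      Finset.le_sup (f := fun i => m i) (Finsupp.mem_support_iff.mpr hi)
    have h2 : m.support.sup (fun i => m i) ≤ D f :=
      Finset.le_sup (f := fun m : σ →₀ ℕ => m.support.sup (fun i => m i)) hm
    exact h1.trans h2

lemma exists_D_of_pos {f : MvPolynomial σ R} (h : 1 ≤ D f) :
    ∃ m ∈ f.support, ∃ i, m i = D f := by
  have hne : f.support.Nonempty := by
    rw [Finset.nonempty_iff_ne_empty]
    intro h0
    unfold D at h
    rw [h0, Finset.sup_empty] at h
    exact absurd h (by simp)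
  obtain ⟨m, hm, hmD⟩ := Finset.exists_mem_eq_sup f.support hne
    (fun m : σ →₀ ℕ => m.support.sup (fun i => m i))
  have hms : m.support.Nonempty := by
    rw [Finset.nonempty_iff_ne_empty]
    intro h0
    have : D f = 0 := by
      unfold D
      rw [hmD, h0, Finset.sup_empty]
      rfl
    omega
  obtain ⟨i, hi, hiD⟩ := Finset.exists_mem_eq_sup m.support hms (fun i => m i)
  refine ⟨m, hm, i, ?_⟩
  unfold D
  rw [hmD, hiD]

lemma D_pos {f : MvPolynomial σ R} (hf : f ≠ 0) (h0 : constantCoeff f = 0) : 1 ≤ D f := by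
  have hne : f.support.Nonempty := by
    rw [Finset.nonempty_iff_ne_empty]
    intro h
    exact hf (MvPolynomial.support_eq_empty.mp h)
  obtain ⟨m, hm⟩ := hne
  have hm0 : m ≠ 0 := by
    rintro rfl
    rw [MvPolynomial.mem_support_iff] at hm
    exact hm h0
  obtain ⟨i, hi⟩ := Finsupp.ne_iff.1 hm0
  have := le_D hm i
  have h1 : m i ≠ 0 := hi
  omega

lemma D_le {f : MvPolynomial σ R} {d : ℕ} (h : ∀ i : σ, MvPolynomial.degreeOf i f ≤ d) :
    D f ≤ d := by
  classical
  unfold D
  apply Finset.sup_le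
  intro m hm
  apply Finset.sup_le
  intro i hi
  refine le_trans ?_ (h i)
  rw [MvPolynomial.degreeOf_eq_sup]
  exact Finset.le_sup (f := fun m : σ →₀ ℕ => m i) hm

variable (hR : ∀ a b : R, a + b = 0 → a = 0)

include hR in
lemma sum_eq_zero {ι : Type*} (s : Finset ι) (f : ι → R) (h : ∑ i ∈ s, f i = 0) :
    ∀ i ∈ s, f i = 0 := by
  classical
  intro i hi
  rw [← Finset.add_sum_erase s f hi] at h
  exact hR _ _ h

include hR in
lemma mem_support_sum {ι : Type*} (s : Finset ι) (f : ι → MvPolynomial σ R) {m : σ →₀ ℕ} :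
    m ∈ (∑ i ∈ s, f i).support ↔ ∃ i ∈ s, m ∈ (f i).support := by
  simp only [MvPolynomial.mem_support_iff, MvPolynomial.coeff_sum]
  constructor
  · intro h
    by_contra hcon
    push Not at hcon
    exact h (Finset.sum_eq_zero hcon)
  · rintro ⟨i, hi, h⟩ h0
    exact h (sum_eq_zero hR s _ h0 i hi)

variable [NoZeroDivisors R]

include hR in
lemma mem_support_mul {f g : MvPolynomial σ R} {m : σ →₀ ℕ} :
    m ∈ (f * g).support ↔ ∃ a ∈ f.support, ∃ b ∈ g.support, m = a + b := by
  classical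
  constructor
  · intro h
    have := MvPolynomial.support_mul f g h
    rw [Finset.mem_add] at this
    obtain ⟨a, ha, b, hb, hab⟩ := this
    exact ⟨a, ha, b, hb, hab.symm⟩
  · rintro ⟨a, ha, b, hb, rfl⟩
    rw [MvPolynomial.mem_support_iff, MvPolynomial.coeff_mul]
    rw [MvPolynomial.mem_support_iff] at ha hb
    intro h0
    have h1 := sum_eq_zero hR _ _ h0 (a, b)
      (Finset.HasAntidiagonal.mem_antidiagonal.mpr (rfl : (a, b).1 + (a, b).2 = a + b))
    rcases mul_eq_zero.1 h1 with h2 | h2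
    · exact ha h2
    · exact hb h2

include hR in
lemma mul_ne {f g : MvPolynomial σ R} (hf : f ≠ 0) (hg : g ≠ 0) : f * g ≠ 0 := by
  obtain ⟨a, ha⟩ := Finset.nonempty_iff_ne_empty.2 (fun h => hf (MvPolynomial.support_eq_empty.1 h))
  obtain ⟨b, hb⟩ := Finset.nonempty_iff_ne_empty.2 (fun h => hg (MvPolynomial.support_eq_empty.1 h))
  intro h0
  have h1 : a + b ∈ (f * g).support := (mem_support_mul hR).2 ⟨a, ha, b, hb, rfl⟩
  rw [h0] at h1
  simp at h1

include hR in
lemma D_le_mul {f g : MvPolynomial σ R} (hf : 1 ≤ D f) (hg : g ≠ 0) : D f ≤ D (f * g) := by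
  obtain ⟨a, ha, i, hi⟩ := exists_D_of_pos hf
  obtain ⟨b, hb⟩ := Finset.nonempty_iff_ne_empty.2 (fun h => hg (MvPolynomial.support_eq_empty.1 h))
  have h1 : a + b ∈ (f * g).support := (mem_support_mul hR).2 ⟨a, ha, b, hb, rfl⟩
  have h2 := le_D h1 i
  rw [Finsupp.add_apply] at h2
  omega

/-- `f` is a product of two polynomials whose largest exponents are positive and in the class of
the largest exponent of `f`. -/
def Splits (f : MvPolynomial σ R) : Prop :=
  ∃ a b : MvPolynomial σ R, f = a * b ∧ 1 ≤ D a ∧ 1 ≤ D b ∧ cls (D a) = cls (D f) ∧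
    cls (D b) = cls (D f)

include hR in
/-- The product of at least two polynomials, all in one class together with the product, splits. -/
lemma splits_prod {n : ℕ} (hn : 2 ≤ n) (x : Fin n → MvPolynomial σ R) (hx : ∀ a, 1 ≤ D (x a))
    (h : ∀ a, cls (D (x a)) = cls (D (∏ a, x a))) : Splits (∏ a, x a) := by
  classical
  have hx0 : ∀ a, x a ≠ 0 := by
    intro a h0
    have := hx a
    rw [h0] at this
    simp [D] at this
  have hprod0 : ∀ s : Finset (Fin n), ∏ a ∈ s, x a ≠ 0 := by
    intro s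
    induction s using Finset.induction_on with
    | empty =>
      rw [Finset.prod_empty]
      intro h1
      apply hx0 ⟨0, by omega⟩
      rw [← mul_one (x ⟨0, by omega⟩), h1, mul_zero]
    | insert a s ha ih =>
      rw [Finset.prod_insert ha]
      exact mul_ne hR (hx0 a) ih
  let a0 : Fin n := ⟨0, by omega⟩
  let a1 : Fin n := ⟨1, by omega⟩
  have h01 : a1 ∈ Finset.univ.erase a0 := by
    refine Finset.mem_erase.2 ⟨?_, Finset.mem_univ _⟩
    intro h1
    have := congrArg Fin.val h1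
    simp [a0, a1] at this
  have e0 : ∏ a, x a = x a0 * ∏ a ∈ Finset.univ.erase a0, x a :=
    (Finset.mul_prod_erase _ _ (Finset.mem_univ a0)).symm
  have e1 : ∏ a ∈ Finset.univ.erase a0, x a =
      x a1 * ∏ a ∈ (Finset.univ.erase a0).erase a1, x a :=
    (Finset.mul_prod_erase _ _ h01).symm
  set q := ∏ a ∈ Finset.univ.erase a0, x a with hq
  have hq1 : D (x a1) ≤ D q := by
    rw [e1]
    exact D_le_mul hR (hx a1) (hprod0 _)
  have hq2 : D q ≤ D (∏ a, x a) := by
    rw [e0, mul_comm]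
    exact D_le_mul hR ((hx a1).trans hq1) (hx0 a0)
  refine ⟨x a0, q, e0, hx a0, (hx a1).trans hq1, h a0, ?_⟩
  apply le_antisymm
  · exact cls_mono ((hx a1).trans hq1) hq2
  · rw [← h a1]
    exact cls_mono (hx a1) hq1

include hR in
/-- The sum of at least two polynomials does not split if they are in one class together with their
sum and their product. -/
lemma main_false {n : ℕ} (hn : 2 ≤ n) (x : Fin n → MvPolynomial σ R) (hx : ∀ a, 1 ≤ D (x a))
    (h1 : ∀ a, cls (D (x a)) = cls (D (∏ a, x a)))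
    (h2 : ∀ a, cls (D (x a)) = cls (D (∑ a, x a)))
    (hs : Splits (∑ a, x a)) : False := by
  classical
  obtain ⟨g, h, hgh, hg1, hh1, hgc, hhc⟩ := hs
  have hx0 : ∀ a, x a ≠ 0 := by
    intro a h0
    have := hx a
    rw [h0] at this
    simp [D] at this
  have hprod0 : ∀ s : Finset (Fin n), ∏ a ∈ s, x a ≠ 0 := by
    intro s
    induction s using Finset.induction_on with
    | empty =>
      rw [Finset.prod_empty]
      intro h1
      apply hx0 ⟨0, by omega⟩
      rw [← mul_one (x ⟨0, by omega⟩), h1, mul_zero]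
    | insert a s ha ih =>
      rw [Finset.prod_insert ha]
      exact mul_ne hR (hx0 a) ih
  set k := cls (D (∑ a, x a)) with hk
  set s := S k with hs
  have hs1 : 1 ≤ s := S_pos k
  have hS : S (k + 1) = (3 * s + 1) / 2 := rfl
  -- lower bounds
  have low : ∀ a, s ≤ D (x a) := by
    intro a
    have := S_cls (hx a)
    rw [h2 a] at this
    exact this
  have lowg : s ≤ D g := by
    have := S_cls hg1
    rw [hgc] at this
    exact this
  have lowh : s ≤ D h := by
    have := S_cls hh1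
    rw [hhc] at this
    exact this
  have upp : D (∏ a, x a) < S (k + 1) := by
    have := lt_S_cls (D (∏ a, x a))
    rw [← h1 ⟨0, by omega⟩, h2 ⟨0, by omega⟩] at this
    exact this
  -- exponents in different factors
  have hxy : ∀ a b, a ≠ b → ∀ m ∈ (x a).support, ∀ m' ∈ (x b).support, ∀ i,
      m i + m' i < (3 * s + 1) / 2 := by
    intro a b hab m hm m' hm' i
    have hb : b ∈ Finset.univ.erase a := Finset.mem_erase.2 ⟨hab.symm, Finset.mem_univ _⟩
    have e0 : ∏ a, x a = x a * (x b * ∏ c ∈ (Finset.univ.erase a).erase b, x c) := by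
      rw [Finset.mul_prod_erase _ _ hb, Finset.mul_prod_erase _ _ (Finset.mem_univ a)]
    obtain ⟨r, hr⟩ := Finset.nonempty_iff_ne_empty.2
      (fun h0 => hprod0 ((Finset.univ.erase a).erase b) (MvPolynomial.support_eq_empty.1 h0))
    have h5 : m + (m' + r) ∈ (∏ a, x a).support := by
      rw [e0]
      exact (mem_support_mul hR).2 ⟨m, hm, _, (mem_support_mul hR).2 ⟨m', hm', r, hr, rfl⟩, rfl⟩
    have h6 := le_D h5 i
    rw [Finsupp.add_apply, Finsupp.add_apply] at h6
    rw [hS] at upp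
    omega
  have hsum : ∀ m : σ →₀ ℕ, (∃ a, m ∈ (x a).support) ↔
      ∃ p ∈ g.support, ∃ q ∈ h.support, m = p + q := by
    intro m
    rw [← mem_support_mul hR, ← hgh, mem_support_sum hR]
    simp
  obtain ⟨a₀, ha₀, i, hi⟩ := exists_D_of_pos hg1
  obtain ⟨b₀, hb₀, j, hj⟩ := exists_D_of_pos hh1
  obtain ⟨c, hc⟩ := (hsum (a₀ + b₀)).mpr ⟨a₀, ha₀, b₀, hb₀, rfl⟩
  -- another index
  obtain ⟨b, hbc⟩ : ∃ b : Fin n, b ≠ c := by
    by_cases h0 : c = ⟨0, by omega⟩
    · refine ⟨⟨1, by omega⟩, ?_⟩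
      rw [h0]
      intro h3
      have := congrArg Fin.val h3
      simp at this
    · exact ⟨⟨0, by omega⟩, fun h3 => h0 h3.symm⟩
  obtain ⟨y₀, hy₀, k', hk'⟩ := exists_D_of_pos (hx b)
  have hb1 := low b
  -- all monomials of the other polynomials have small exponents at `i` and `j`
  have hyi : ∀ b', b' ≠ c → ∀ m' ∈ (x b').support, m' i < (s + 1) / 2 := by
    intro b' hb' m' hm'
    have := hxy c b' hb'.symm _ hc m' hm' i
    rw [Finsupp.add_apply] at this
    omega
  have hyj : ∀ b', b' ≠ c → ∀ m' ∈ (x b').support, m' j < (s + 1) / 2 := by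
    intro b' hb' m' hm'
    have := hxy c b' hb'.symm _ hc m' hm' j
    rw [Finsupp.add_apply] at this
    omega
  have hxk : ∀ m ∈ (x c).support, m k' < (s + 1) / 2 := by
    intro m hm
    have := hxy c b hbc.symm m hm y₀ hy₀ k'
    omega
  obtain ⟨p, hp, q, hq, hpq⟩ := (hsum y₀).mp ⟨b, hy₀⟩
  have k1 : p + b₀ ∈ (x c).support := by
    obtain ⟨b', hb'⟩ := (hsum (p + b₀)).mpr ⟨p, hp, b₀, hb₀, rfl⟩
    by_cases h0 : b' = c
    · rw [← h0]; exact hb'
    · have := hyj b' h0 _ hb'
      rw [Finsupp.add_apply] at this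
      omega
  have k2 : a₀ + q ∈ (x c).support := by
    obtain ⟨b', hb'⟩ := (hsum (a₀ + q)).mpr ⟨a₀, ha₀, q, hq, rfl⟩
    by_cases h0 : b' = c
    · rw [← h0]; exact hb'
    · have := hyi b' h0 _ hb'
      rw [Finsupp.add_apply] at this
      omega
  have h3 := hxk _ k1
  have h4 := hxk _ k2
  rw [Finsupp.add_apply] at h3 h4
  rw [hpq, Finsupp.add_apply] at hk'
  omega

end

/-- The pattern `{x_1, …, x_n, x_1 + ⋯ + x_n, x_1 ⋯ x_n}` is monochromatic for the colouring `c` of
`P σ R d`: the polynomials `x a`, their sum and their product are in `P σ R d` and have one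
colour. -/
def Mono {σ : Type u} {R : Type v} [CommSemiring R] {d r : ℕ} (c : P σ R d → Fin r) {n : ℕ}
    (x : Fin n → MvPolynomial σ R) : Prop :=
  ∃ (hx : ∀ a, x a ∈ P σ R d) (hs : ∑ a, x a ∈ P σ R d) (hp : ∏ a, x a ∈ P σ R d),
    ∀ a, c ⟨x a, hx a⟩ = c ⟨∑ a, x a, hs⟩ ∧ c ⟨x a, hx a⟩ = c ⟨∏ a, x a, hp⟩

theorem general (σ : Type u) (R : Type v) [CommSemiring R] [NoZeroDivisors R]
    (hR : ∀ a b : R, a + b = 0 → a = 0) (d r : ℕ) (hd : (d : ℝ) < (3 / 2) ^ r) :
    ∃ c : P σ R d → Fin (2 * r), ∀ n : ℕ, 2 ≤ n → ∀ x : Fin n → MvPolynomial σ R,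
      ¬ Mono c x := by
  classical
  have hdS : d < S r := by
    have h1 := hd.trans_le (pow_le_S r)
    exact_mod_cast h1
  have hlt : ∀ f : P σ R d, 2 * cls (D f.1) + (if Splits f.1 then 1 else 0) < 2 * r := by
    intro f
    have h1 := D_le f.2.2.2
    have h2 := D_pos f.2.1 f.2.2.1
    have h3 := S_cls h2
    have h4 : S (cls (D f.1)) < S r := by omega
    have h5 := S_mono.lt_iff_lt.1 h4
    split_ifs <;> omega
  refine ⟨fun f => ⟨2 * cls (D f.1) + (if Splits f.1 then 1 else 0), hlt f⟩, ?_⟩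
  rintro n hn x ⟨hx, hs, hp, h⟩
  simp only [Fin.mk.injEq] at h
  have e1 : ∀ a, cls (D (x a)) = cls (D (∑ a, x a)) := by
    intro a
    have := (h a).1
    split_ifs at this <;> omega
  have e2 : ∀ a, cls (D (x a)) = cls (D (∏ a, x a)) := by
    intro a
    have := (h a).2
    split_ifs at this <;> omega
  have hpos : ∀ a, 1 ≤ D (x a) := fun a => D_pos (hx a).1 (hx a).2.1
  have sp : Splits (∏ a, x a) := splits_prod hR hn x hpos e2
  have ss : Splits (∑ a, x a) := by
    have h3 := (h ⟨0, by omega⟩).2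
    have h4 := (h ⟨0, by omega⟩).1
    rw [if_pos sp] at h3
    by_contra hns
    rw [if_neg hns] at h4
    split_ifs at h3 h4 <;> omega
  exact main_false hR hn x hpos e2 e1 ss

/-- A colouring `c` of `P d` (indeterminates `x_0, x_1, x_2, …`, coefficients in `ℕ`) has a
monochromatic `{x, y, x + y, x y}`: there are `x, y` with `x, y, x + y, x * y` all in `P d` and all
of one colour. -/
def HasMonochromatic (d r : ℕ) (c : P ℕ ℕ d → Fin r) : Prop :=
  ∃ (x y : MvPolynomial ℕ ℕ) (hx : x ∈ P ℕ ℕ d) (hy : y ∈ P ℕ ℕ d) (hs : x + y ∈ P ℕ ℕ d)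
    (hp : x * y ∈ P ℕ ℕ d),
    c ⟨x, hx⟩ = c ⟨y, hy⟩ ∧ c ⟨x, hx⟩ = c ⟨x + y, hs⟩ ∧ c ⟨x, hx⟩ = c ⟨x * y, hp⟩

/-- (1) For every `d ≥ 1` the pattern `{x, y, x + y, x y}` is not partition regular over `P d`;
some colouring of `P d` with at most `2 log d / log (3/2) + 2` colours avoids it.

(2) For every set `σ` of indeterminates, every commutative semiring `R` of coefficients without zero
divisors in which a sum can only be zero if its terms are, and all `d`, `r` with `d < (3/2) ^ r`,
one colouring of `P σ R d` with `2 r` colours avoids all the patterns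
`{x_1, …, x_n, x_1 + ⋯ + x_n, x_1 ⋯ x_n}`, `n ≥ 2`, at the same time. -/
theorem result :
    (∀ d : ℕ, 1 ≤ d → ∃ r : ℕ, (r : ℝ) ≤ 2 * (Real.log d / Real.log (3 / 2)) + 2 ∧
      ∃ c : P ℕ ℕ d → Fin r, ¬ HasMonochromatic d r c) ∧
    (∀ (σ : Type u) (R : Type v) [CommSemiring R] [NoZeroDivisors R],
      (∀ a b : R, a + b = 0 → a = 0) → ∀ d r : ℕ, (d : ℝ) < (3 / 2) ^ r →
      ∃ c : P σ R d → Fin (2 * r), ∀ n : ℕ, 2 ≤ n → ∀ x : Fin n → MvPolynomial σ R,
        ¬ Mono c x) := by
  refine ⟨?_, fun σ R _ _ hR d r hd => general σ R hR d r hd⟩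
  intro d hd
  have hl : 0 < Real.log (3 / 2) := Real.log_pos (by norm_num)
  have hd1 : (1 : ℝ) ≤ d := by exact_mod_cast hd
  have hd0 : (0 : ℝ) < d := by linarith
  set q := Real.log d / Real.log (3 / 2) with hq
  have hq0 : 0 ≤ q := div_nonneg (Real.log_nonneg hd1) hl.le
  obtain ⟨c, hc⟩ := general ℕ ℕ (fun a b h => by omega) d (⌊q⌋₊ + 1) (by
    have h1 : q < (⌊q⌋₊ + 1 : ℕ) := by
      have := Nat.lt_floor_add_one q
      exact_mod_cast this
    have h2 : Real.log d < ((⌊q⌋₊ + 1 : ℕ) : ℝ) * Real.log (3 / 2) := by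
      rw [hq, div_lt_iff₀ hl] at h1
      exact h1
    rw [← Real.log_pow] at h2
    exact (Real.log_lt_log_iff hd0 (by positivity)).1 h2)
  refine ⟨2 * (⌊q⌋₊ + 1), ?_, c, ?_⟩
  · have := Nat.floor_le hq0
    push_cast
    linarith
  · rintro ⟨x, y, hx, hy, hs, hp, h1, h2, h3⟩
    have hs' : ∑ a, ![x, y] a ∈ P ℕ ℕ d := by
      rw [Fin.sum_univ_two]; exact hs
    have hp' : ∏ a, ![x, y] a ∈ P ℕ ℕ d := by
      rw [Fin.prod_univ_two]; exact hp
    have es : (⟨∑ a, ![x, y] a, hs'⟩ : P ℕ ℕ d) = ⟨x + y, hs⟩ := by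
      apply Subtype.ext
      show ∑ a, ![x, y] a = x + y
      rw [Fin.sum_univ_two]; rfl
    have ep : (⟨∏ a, ![x, y] a, hp'⟩ : P ℕ ℕ d) = ⟨x * y, hp⟩ := by
      apply Subtype.ext
      show ∏ a, ![x, y] a = x * y
      rw [Fin.prod_univ_two]; rfl
    refine hc 2 le_rfl ![x, y] ⟨?_, hs', hp', ?_⟩
    · intro a
      fin_cases a
      · exact hx
      · exact hy
    · intro a
      rw [es, ep]
      fin_cases a
      · exact ⟨h2, h3⟩
      · exact ⟨h1.symm.trans h2, h1.symm.trans h3⟩

end Pool.Agent.Results.MP_5a868e_co.LogarithmicallyManyColours
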